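import Mathlib

/-! Definitions: sheets of closed sets in `ℂℙ³`, CR dimension, Levi-flatness, and domains with a
compact quotient by a group of projective transformations. -/

set_option autoImplicit false

namespace Pool.Agent.Helper30.CR

open Complex Projectivization
open scoped LinearAlgebra.Projectivization ComplexConjugate ContDiff Topology

/-- Complex projective three-space `ℂℙ³`. -/
abbrev CP3 : Type := ℙ ℂ (Fin 4 → ℂ)

/-- `ℂℙ³` carries the quotient topology of `ℂ⁴ ∖ {0}`. -/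
instance : TopologicalSpace CP3 :=
  inferInstanceAs (TopologicalSpace (Quotient (projectivizationSetoid ℂ (Fin 4 → ℂ))))

/-- The cone over `S ⊆ ℂℙ³`: the preimage of `S` in `ℂ⁴ ∖ {0}`. -/
def cone (S : Set CP3) : Set (Fin 4 → ℂ) := {z | ∃ hz : z ≠ 0, mk ℂ z hz ∈ S}

/-- `S ⊆ ℂℙ³` is an embedded real four-dimensional submanifold of class `C^n`: near every point
its cone is the zero set of a `C^n` submersion to `ℂ = ℝ²`. -/
def IsSubmanifoldOfDimFour (n : WithTop ℕ∞) (S : Set CP3) : Prop :=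
  ∀ z ∈ cone S, ∃ U : Set (Fin 4 → ℂ), IsOpen U ∧ z ∈ U ∧ ∃ F : (Fin 4 → ℂ) → ℂ,
    ContDiffOn ℝ n F U ∧ (∀ y ∈ U, y ∈ cone S ↔ F y = 0) ∧
      ∀ y ∈ U ∩ cone S, Function.Surjective (fderiv ℝ F y)

/-- `𝓜` presents `Λ ∩ U` as a finite union of sheets: each member `M` of the finite family `𝓜` is
an embedded `C^∞` real four-dimensional submanifold of the open set `U`, closed in `U`. -/
structure IsSheetDecomposition (Λ U : Set CP3) (𝓜 : Set (Set CP3)) : Prop where
  isOpen : IsOpen U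
  finite : 𝓜.Finite
  union : Λ ∩ U = ⋃₀ 𝓜
  closed : ∀ M ∈ 𝓜, ∃ K, IsClosed K ∧ M = U ∩ K
  manifold : ∀ M ∈ 𝓜, IsSubmanifoldOfDimFour ∞ M

/-- `Λ` is locally a finite union of embedded real four-dimensional submanifolds. -/
def IsLocallyUnionOfSheets (Λ : Set CP3) : Prop :=
  ∀ p ∈ Λ, ∃ U 𝓜, p ∈ U ∧ IsSheetDecomposition Λ U 𝓜

/-- `S ⊆ Λ` is made of sheets of `Λ` (as every component of `Λ` is): every `q ∈ S` has a
neighbourhood `U` such that the connected piece of `S ∩ U` containing `q` is one of the sheets of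
`Λ ∩ U`. -/
def IsMadeOfSheets (Λ S : Set CP3) : Prop :=
  ∀ q ∈ S, ∃ U 𝓜, q ∈ U ∧ IsSheetDecomposition Λ U 𝓜 ∧ connectedComponentIn (S ∩ U) q ∈ 𝓜

/-- The tangent space at `z` of the cone over `S`: velocities of `C¹` curves. -/
def tangentSpace (S : Set CP3) (z : Fin 4 → ℂ) : Set (Fin 4 → ℂ) :=
  {ξ | ∃ c : ℝ → Fin 4 → ℂ, ContDiffAt ℝ 1 c 0 ∧ c 0 = z ∧ (∀ᶠ t in 𝓝 0, c t ∈ cone S) ∧
    deriv c 0 = ξ}

/-- The complex tangent space `T ∩ iT` at `z` of the cone over `S`. -/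
def complexTangentSpace (S : Set CP3) (z : Fin 4 → ℂ) : Set (Fin 4 → ℂ) :=
  {ξ | ξ ∈ tangentSpace S z ∧ I • ξ ∈ tangentSpace S z}

/-- The CR dimension of `S` at `[z]` is `k`: the complex tangent space of the cone over `S` at `z`
is a complex vector space of dimension `k + 1`. (It is the preimage of the complex tangent space
of `S` at `[z]` under the differential of `ℂ⁴ ∖ {0} → ℂℙ³`, whose kernel is the line `ℂ z`.) -/
def HasCRDimensionAt (S : Set CP3) (z : Fin 4 → ℂ) (k : ℕ) : Prop :=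
  ∃ H : Submodule ℂ (Fin 4 → ℂ), (∀ ξ, ξ ∈ H ↔ ξ ∈ complexTangentSpace S z) ∧
    Module.finrank ℂ H = k + 1

/-- The complex tangent distribution of `S` is involutive at `[z]`: if the vector fields `V` and
`W` are `C¹` at `z` and are sections of the complex tangent distribution of the cone over `S`
along the connected piece through `z` of the part of this cone in some neighbourhood `U` of `z`,
then the Lie bracket of `V` and `W` at `z` belongs to this distribution too. -/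
def IsLeviFlatAt (S : Set CP3) (z : Fin 4 → ℂ) : Prop :=
  ∀ V W : (Fin 4 → ℂ) → (Fin 4 → ℂ), ContDiffAt ℝ 1 V z → ContDiffAt ℝ 1 W z →
    ∀ U : Set (Fin 4 → ℂ), IsOpen U → z ∈ U →
      (∀ y ∈ connectedComponentIn (cone S ∩ U) z,
        V y ∈ complexTangentSpace S y ∧ W y ∈ complexTangentSpace S y) →
      VectorField.lieBracket ℝ V W z ∈ complexTangentSpace S z

/-- The bijection `γ` of `D ⊆ ℂℙ³` is (the restriction of) a projective transformation. -/
def IsProjectiveSelfMap (D : Set CP3) (γ : Equiv.Perm D) : Prop :=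
  ∃ A : (Fin 4 → ℂ) ≃ₗ[ℂ] (Fin 4 → ℂ),
    ∀ p : D, ((γ p : D) : CP3) = Projectivization.map A.toLinearMap A.injective p

/-- `D ⊆ ℂℙ³` has a compact quotient by a group `Γ` of projective transformations acting properly
discontinuously on `D`. -/
def HasCompactProjectiveQuotient (D : Set CP3) : Prop :=
  ∃ Γ : Subgroup (Equiv.Perm D),
    (∀ γ ∈ Γ, IsProjectiveSelfMap D γ) ∧
    (∀ K : Set D, IsCompact K → {γ : Equiv.Perm D | γ ∈ Γ ∧ ((γ '' K) ∩ K).Nonempty}.Finite) ∧
    CompactSpace (Quotient (MulAction.orbitRel Γ D))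

/-! ### Topology of `ℂℙ³` -/

abbrev V4 : Type := Fin 4 → ℂ

lemma isQuotientMap_mk :
    Topology.IsQuotientMap (fun z : {z : Fin 4 → ℂ // z ≠ 0} => (mk ℂ z.1 z.2 : CP3)) :=
  isQuotientMap_quotient_mk'

lemma continuous_mk :
    Continuous (fun z : {z : Fin 4 → ℂ // z ≠ 0} => (mk ℂ z.1 z.2 : CP3)) :=
  isQuotientMap_mk.continuous

lemma isOpen_cone {S : Set CP3} (hS : IsOpen S) : IsOpen (cone S) := by
  have h1 : IsOpen {z : {z : Fin 4 → ℂ // z ≠ 0} | (mk ℂ z.1 z.2 : CP3) ∈ S} :=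
    hS.preimage continuous_mk
  have h2 : IsOpen {z : Fin 4 → ℂ | z ≠ 0} := isOpen_ne
  have h3 := h2.isOpenMap_subtype_val _ h1
  convert h3 using 1
  ext z
  simp [cone]

lemma cone_ne {S : Set CP3} {z : Fin 4 → ℂ} (hz : z ∈ cone S) : z ≠ 0 := hz.1

lemma cone_mono {S T : Set CP3} (h : S ⊆ T) : cone S ⊆ cone T :=
  fun _ ⟨hz, h1⟩ => ⟨hz, h h1⟩

lemma cone_smul {S : Set CP3} {z : Fin 4 → ℂ} (hz : z ∈ cone S) {c : ℂ} (hc : c ≠ 0) :
    c • z ∈ cone S := by
  refine ⟨smul_ne_zero hc hz.1, ?_⟩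
  have : (mk ℂ (c • z) (smul_ne_zero hc hz.1) : CP3) = mk ℂ z hz.1 := by
    rw [mk_eq_mk_iff']
    exact ⟨c, rfl⟩
  rw [this]
  exact hz.2

lemma mem_cone_inter {S T : Set CP3} {z : Fin 4 → ℂ} :
    z ∈ cone (S ∩ T) ↔ z ∈ cone S ∧ z ∈ cone T := by
  constructor
  · rintro ⟨hz, h1, h2⟩
    exact ⟨⟨hz, h1⟩, ⟨hz, h2⟩⟩
  · rintro ⟨⟨hz, h1⟩, ⟨_, h2⟩⟩
    exact ⟨hz, h1, h2⟩

lemma mem_cone_compl {S : Set CP3} {z : Fin 4 → ℂ} (hz : z ≠ 0) :
    z ∈ cone Sᶜ ↔ z ∉ cone S := by
  constructor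
  · rintro ⟨_, h1⟩ ⟨_, h2⟩
    exact h1 h2
  · intro h
    exact ⟨hz, fun h2 => h ⟨hz, h2⟩⟩

lemma isClosed_compl_cone {S : Set CP3} (hS : IsOpen S) : IsClosed (cone S)ᶜ :=
  (isOpen_cone hS).isClosed_compl

lemma tendsto_mk {x : ℕ → Fin 4 → ℂ} {a : Fin 4 → ℂ} (ha : a ≠ 0) (hx : ∀ n, x n ≠ 0)
    (h : Filter.Tendsto x Filter.atTop (𝓝 a)) :
    Filter.Tendsto (fun n => (mk ℂ (x n) (hx n) : CP3)) Filter.atTop (𝓝 (mk ℂ a ha)) := by
  have h1 : Filter.Tendsto (fun n => (⟨x n, hx n⟩ : {z : Fin 4 → ℂ // z ≠ 0})) Filter.atTop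
      (𝓝 ⟨a, ha⟩) := by
    rw [tendsto_subtype_rng]
    exact h
  exact (continuous_mk.tendsto ⟨a, ha⟩).comp h1

lemma sum_conj_ne {z : Fin 4 → ℂ} (hz : z ≠ 0) : ∑ k, z k * conj (z k) ≠ 0 := by
  have h1 : ∑ k, z k * conj (z k) = ((∑ k, ‖z k‖ ^ 2 : ℝ) : ℂ) := by
    push_cast
    apply Finset.sum_congr rfl
    intro k _
    rw [Complex.mul_conj, Complex.normSq_eq_norm_sq]
    push_cast
    rfl
  rw [h1]
  obtain ⟨k, hk⟩ := Function.ne_iff.mp hz
  have h2 : 0 < ∑ k, ‖z k‖ ^ 2 := by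
    apply lt_of_lt_of_le _ (Finset.single_le_sum (f := fun k => ‖z k‖ ^ 2)
      (fun _ _ => by positivity) (Finset.mem_univ k))
    have : 0 < ‖z k‖ := norm_pos_iff.mpr hk
    positivity
  exact_mod_cast h2.ne'

/-- `[z] ↦ z \bar z^T / |z|²` -/
noncomputable def em : CP3 → Fin 4 → Fin 4 → ℂ :=
  Projectivization.lift (fun z => fun i j => z.1 i * conj (z.1 j) / ∑ k, z.1 k * conj (z.1 k)) (by
    rintro ⟨a, ha⟩ ⟨b, hb⟩ t h
    simp only at h
    subst h
    have ht : t ≠ 0 := by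
      rintro rfl
      simp at ha
    have ht' : conj t ≠ 0 := (map_ne_zero _).mpr ht
    funext i j
    have h1 : ∑ k, (t • b) k * conj ((t • b) k) = (t * conj t) * ∑ k, b k * conj (b k) := by
      rw [Finset.mul_sum]
      apply Finset.sum_congr rfl
      intro k _
      simp only [Pi.smul_apply, smul_eq_mul, map_mul]
      ring
    have h2 := sum_conj_ne hb
    simp only
    rw [h1]
    simp only [Pi.smul_apply, smul_eq_mul, map_mul]
    field_simp)

lemma em_mk {z : Fin 4 → ℂ} (hz : z ≠ 0) (i j : Fin 4) :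
    em (mk ℂ z hz) i j = z i * conj (z j) / ∑ k, z k * conj (z k) := rfl

lemma continuous_em : Continuous em := by
  rw [isQuotientMap_mk.continuous_iff]
  rw [continuous_pi_iff]
  intro i
  rw [continuous_pi_iff]
  intro j
  have hc : ∀ k : Fin 4, Continuous (fun z : {z : Fin 4 → ℂ // z ≠ 0} => z.1 k) := fun k =>
    (continuous_apply k).comp continuous_subtype_val
  apply Continuous.div
  · exact (hc i).mul (Complex.continuous_conj.comp (hc j))
  · exact continuous_finsetSum _ fun k _ => (hc k).mul (Complex.continuous_conj.comp (hc k))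
  · intro z
    exact sum_conj_ne z.2

lemma em_injective : Function.Injective em := by
  intro p q h
  induction p using ind with
  | h z hz =>
    induction q using ind with
    | h y hy =>
      obtain ⟨j, hj⟩ := Function.ne_iff.mp hy
      simp only [Pi.zero_apply] at hj
      have hj' : conj (y j) ≠ 0 := (map_ne_zero _).mpr hj
      have hz' := sum_conj_ne hz
      have hy' := sum_conj_ne hy
      have h1 : ∀ i, z i * conj (z j) * ∑ k, y k * conj (y k) =
          y i * conj (y j) * ∑ k, z k * conj (z k) := by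
        intro i
        have := congrFun (congrFun h i) j
        rw [em_mk, em_mk, div_eq_div_iff hz' hy'] at this
        exact this
      have hzj : conj (z j) ≠ 0 := by
        intro h0
        have h2 := h1 j
        rw [h0, mul_zero, zero_mul] at h2
        exact (mul_ne_zero (mul_ne_zero hj hj') hz') h2.symm
      rw [mk_eq_mk_iff']
      refine ⟨conj (y j) * (∑ k, z k * conj (z k)) / (conj (z j) * ∑ k, y k * conj (y k)), ?_⟩
      funext i
      simp only [Pi.smul_apply, smul_eq_mul]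
      rw [div_mul_eq_mul_div, div_eq_iff (mul_ne_zero hzj hy')]
      linear_combination -(h1 i)

instance : T2Space CP3 := T2Space.of_injective_continuous em_injective continuous_em

/-- the sphere maps onto `ℂℙ³` -/
lemma exists_unit (p : CP3) : ∃ (k : Fin 4 → ℂ) (hk : k ≠ 0), ‖k‖ = 1 ∧ mk ℂ k hk = p := by
  induction p using ind with
  | h z hz =>
    have hn : ‖z‖ ≠ 0 := norm_ne_zero_iff.mpr hz
    have hn' : ((‖z‖ : ℝ) : ℂ) ≠ 0 := by exact_mod_cast hn
    have h1 : ‖((‖z‖ : ℝ) : ℂ)⁻¹ • z‖ = 1 := by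
      rw [norm_smul, norm_inv, Complex.norm_real, norm_norm, inv_mul_cancel₀ hn]
    refine ⟨((‖z‖ : ℝ) : ℂ)⁻¹ • z, smul_ne_zero (inv_ne_zero hn') hz, h1, ?_⟩
    rw [mk_eq_mk_iff']
    exact ⟨((‖z‖ : ℝ) : ℂ)⁻¹, rfl⟩

instance : CompactSpace CP3 := by
  let S : Set (Fin 4 → ℂ) := Metric.sphere 0 1
  have hS : CompactSpace S := isCompact_iff_compactSpace.mp (isCompact_sphere 0 1)
  have hne : ∀ z : S, z.1 ≠ 0 := by
    intro z h
    have := z.2
    rw [mem_sphere_zero_iff_norm, h, norm_zero] at this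
    exact zero_ne_one this
  let φ : S → CP3 := fun z => mk ℂ z.1 (hne z)
  have hφ : Continuous φ :=
    continuous_mk.comp (f := fun z : S => (⟨z.1, hne z⟩ : {z : Fin 4 → ℂ // z ≠ 0}))
      (continuous_subtype_val.subtype_mk _)
  have hsurj : Function.Surjective φ := by
    intro p
    obtain ⟨k, hk, h1, h2⟩ := exists_unit p
    exact ⟨⟨k, by rw [mem_sphere_zero_iff_norm]; exact h1⟩, h2⟩
  exact hsurj.compactSpace hφ

end Pool.Agent.Helper30.CR
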