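import Pool.Agent.Helper30.CR.Defs
import Pool.Agent.Helper30.ProjDyn4

/-! From a compact projective quotient to the linear picture. -/

open Filter Topology Set Projectivization
open scoped LinearAlgebra.Projectivization

namespace Pool.Agent.Helper30.CR

open Pool.Agent.Helper30.ProjDyn

/-- the projective transformation of a linear automorphism -/
noncomputable def act (A : V4 ≃L[ℂ] V4) (p : CP3) : CP3 :=
  Projectivization.map (A.toLinearEquiv.toLinearMap) A.injective p

lemma act_mk (A : V4 ≃L[ℂ] V4) {z : V4} (hz : z ≠ 0) (hA : A z ≠ 0) :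
    act A (mk ℂ z hz) = mk ℂ (A z) hA := rfl

lemma ne_map (A : V4 ≃L[ℂ] V4) {z : V4} (hz : z ≠ 0) : A z ≠ 0 := by
  intro h
  exact hz (A.injective (by rw [h, map_zero]))

lemma act_mul (A B : V4 ≃L[ℂ] V4) (p : CP3) : act (A * B) p = act A (act B p) := by
  induction p using ind with
  | h z hz => rfl

lemma act_one (p : CP3) : act 1 p = p := by
  induction p using ind with
  | h z hz => rfl

lemma act_injective (A : V4 ≃L[ℂ] V4) : Function.Injective (act A) :=
  Projectivization.map_injective _ A.injective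

lemma continuous_act (A : V4 ≃L[ℂ] V4) : Continuous (act A) := by
  rw [isQuotientMap_mk.continuous_iff]
  exact continuous_mk.comp (f := fun z : {z : Fin 4 → ℂ // z ≠ 0} =>
    (⟨A z.1, ne_map A z.2⟩ : {z : Fin 4 → ℂ // z ≠ 0}))
    ((A.continuous.comp continuous_subtype_val).subtype_mk _)

variable {D : Set CP3}

/-- the group of the linear automorphisms inducing elements of `Γ` -/
def linGroup (Γ : Subgroup (Equiv.Perm D)) : Subgroup (V4 ≃L[ℂ] V4) where
  carrier := {A | ∃ γ ∈ Γ, ∀ p : D, ((γ p : D) : CP3) = act A p}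
  mul_mem' := by
    rintro A B ⟨γ, hγ, hA⟩ ⟨δ, hδ, hB⟩
    refine ⟨γ * δ, Γ.mul_mem hγ hδ, fun p => ?_⟩
    rw [act_mul, ← hB, ← hA]
    rfl
  one_mem' := ⟨1, Γ.one_mem, fun p => by rw [act_one]; rfl⟩
  inv_mem' := by
    rintro A ⟨γ, hγ, hA⟩
    refine ⟨γ⁻¹, Γ.inv_mem hγ, fun p => ?_⟩
    apply act_injective A
    rw [← hA, ← act_mul, mul_inv_cancel, act_one]
    simp

lemma mem_linGroup {Γ : Subgroup (Equiv.Perm D)} {A : V4 ≃L[ℂ] V4} :
    A ∈ linGroup Γ ↔ ∃ γ ∈ Γ, ∀ p : D, ((γ p : D) : CP3) = act A p := Iff.rfl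

lemma exists_lin {Γ : Subgroup (Equiv.Perm D)} (hΓ : ∀ γ ∈ Γ, IsProjectiveSelfMap D γ)
    {γ : Equiv.Perm D} (hγ : γ ∈ Γ) : ∃ A ∈ linGroup Γ, ∀ p : D, ((γ p : D) : CP3) = act A p := by
  obtain ⟨A, hA⟩ := hΓ γ hγ
  have h1 : ∀ p : D, ((γ p : D) : CP3) = act A.toContinuousLinearEquiv p := hA
  exact ⟨A.toContinuousLinearEquiv, ⟨γ, hγ, h1⟩, h1⟩

/-- linear automorphisms inducing the same map on an open set are proportional -/
lemma proportional {A B : V4 ≃L[ℂ] V4} (hD : IsOpen D) {x : V4} (hx : x ∈ cone D)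
    (h : ∀ p ∈ D, act A p = act B p) : ∃ c : ℂ, ∀ v, A v = c • B v := by
  have h1 : ∀ y ∈ cone D, ∃ c : ℂ, A y = c • B y := by
    rintro y ⟨hy, hyD⟩
    have h2 := h _ hyD
    rw [act_mk A hy (ne_map A hy), act_mk B hy (ne_map B hy), mk_eq_mk_iff'] at h2
    obtain ⟨c, hc⟩ := h2
    exact ⟨c, hc.symm⟩
  obtain ⟨μ, hμ⟩ := h1 x hx
  refine ⟨μ, fun v => ?_⟩
  by_cases hdep : ∃ a : ℂ, v = a • x
  · obtain ⟨a, rfl⟩ := hdep
    rw [map_smul, map_smul, hμ, smul_comm]
  -- small multiples of `v`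
  have hlim : ∀ a : ℂ, Tendsto (fun t : ℝ => x + ((t : ℂ) * a) • v) (𝓝[≠] 0) (𝓝 x) := by
    intro a
    have hc : Continuous fun t : ℝ => x + ((t : ℂ) * a) • v := by fun_prop
    have := hc.tendsto 0
    simp only [Complex.ofReal_zero, zero_mul, zero_smul, add_zero] at this
    exact this.mono_left nhdsWithin_le_nhds
  have hev := ((hlim 1).eventually ((isOpen_cone hD).mem_nhds hx)).and
    (((hlim 2).eventually ((isOpen_cone hD).mem_nhds hx)).and self_mem_nhdsWithin)
  obtain ⟨t, ht1, ht2, ht0⟩ := hev.exists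
  have ht0' : (t : ℂ) ≠ 0 := by exact_mod_cast ht0
  obtain ⟨l, hl⟩ := h1 _ ht1
  obtain ⟨n, hn⟩ := h1 _ ht2
  have hind : LinearIndependent ℂ ![B x, B v] := by
    rw [LinearIndependent.pair_iff]
    intro s r hsr
    have h3 : s • x + r • v = 0 := by
      apply B.injective
      rw [map_add, map_smul, map_smul, hsr, map_zero]
    by_cases hr : r = 0
    · subst hr
      simp only [zero_smul, add_zero, smul_eq_zero] at h3
      exact ⟨h3.resolve_right hx.1, rfl⟩
    · exfalso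
      apply hdep
      refine ⟨-(r⁻¹ * s), ?_⟩
      have h4 : r • v = -(s • x) := by rw [eq_neg_iff_add_eq_zero, add_comm]; exact h3
      calc v = r⁻¹ • (r • v) := by rw [smul_smul, inv_mul_cancel₀ hr, one_smul]
        _ = _ := by rw [h4, smul_neg, smul_smul, neg_smul]
  -- compare the coefficients
  have h5 : (2 * l - μ - n) • B x + (2 * (t : ℂ) * l - 2 * (t : ℂ) * n) • B v = 0 := by
    simp only [mul_one, map_add, map_smul, smul_add, smul_smul] at hl hn
    rw [hμ] at hl hn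
    have h6 : (μ • B x + ((t : ℂ) * 2) • A v) = (2 : ℂ) • (μ • B x + (t : ℂ) • A v) - μ • B x := by
      module
    rw [hn, hl] at h6
    have h7 : (2 : ℂ) • (l • B x + (l * ↑t) • B v) - μ • B x -
      (n • B x + (n * (↑t * 2)) • B v) = 0 := by
      rw [← h6, sub_self]
    rw [← h7]
    module
  obtain ⟨e1, e2⟩ := (LinearIndependent.pair_iff.1 hind) _ _ h5
  have e3 : l = n := by
    have : 2 * (t : ℂ) * (l - n) = 0 := by linear_combination e2
    rcases mul_eq_zero.1 this with h8 | h8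
    · exfalso; exact (mul_ne_zero two_ne_zero ht0') h8
    · exact sub_eq_zero.1 h8
  have e4 : l = μ := by
    rw [← e3] at e1
    linear_combination e1
  have h9 : (t : ℂ) • A v = (t : ℂ) • (μ • B v) := by
    simp only [mul_one, map_add, map_smul, smul_add, smul_smul] at hl
    rw [hμ, e4] at hl
    have := add_left_cancel hl
    rw [this, smul_smul, mul_comm]
  exact smul_right_injective V4 ht0' h9

/-- compact fundamental sets -/
lemma exists_compact {Γ : Subgroup (Equiv.Perm D)} (hD : IsOpen D)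
    (hΓ : ∀ γ ∈ Γ, IsProjectiveSelfMap D γ)
    (hc : CompactSpace (Quotient (MulAction.orbitRel Γ D))) :
    ∃ K : Set D, IsCompact K ∧ ∀ p : D, ∃ γ ∈ Γ, ∃ q ∈ K, γ q = p := by
  have : LocallyCompactSpace D := hD.isOpenEmbedding_subtypeVal.locallyCompactSpace
  have : ContinuousConstSMul Γ D := by
    refine ⟨?_⟩
    rintro ⟨γ, hγ⟩
    obtain ⟨A, -, hA⟩ := exists_lin hΓ hγ
    have h1 : (fun p : D => (⟨γ, hγ⟩ : Γ) • p) = fun p : D => (⟨act A p, by
        rw [← hA]; exact (γ p).2⟩ : D) := by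
      funext p
      apply Subtype.ext
      exact hA p
    rw [h1]
    exact ((continuous_act A).comp continuous_subtype_val).subtype_mk _
  have hopen : IsOpenMap (Quotient.mk (MulAction.orbitRel Γ D)) :=
    isOpenMap_quotient_mk'_mul
  have hK : ∀ x : D, ∃ K : Set D, IsCompact K ∧ x ∈ interior K := fun x => by
    obtain ⟨K, hK, hx⟩ := exists_compact_mem_nhds x
    exact ⟨K, hK, mem_interior_iff_mem_nhds.2 hx⟩
  choose K hKc hKx using hK
  obtain ⟨t, ht⟩ := isCompact_univ.elim_finite_subcover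
    (fun x : D => Quotient.mk (MulAction.orbitRel Γ D) '' interior (K x))
    (fun x => hopen _ isOpen_interior) (by
      intro q _
      obtain ⟨x, rfl⟩ := Quotient.exists_rep q
      exact mem_iUnion.2 ⟨x, x, hKx x, rfl⟩)
  refine ⟨⋃ x ∈ t, K x, t.isCompact_biUnion fun x _ => hKc x, fun p => ?_⟩
  obtain ⟨x, hx⟩ := mem_iUnion.1 (ht (mem_univ (Quotient.mk (MulAction.orbitRel Γ D) p)))
  obtain ⟨hxt, y, hy, hyp⟩ := mem_iUnion.1 hx
  have h1 : (MulAction.orbitRel Γ D).r y p := Quotient.exact hyp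
  have h2 : p ∈ MulAction.orbit Γ y := by
    have := (MulAction.orbitRel Γ D).symm h1
    exact (MulAction.orbitRel_apply).1 this
  obtain ⟨⟨γ, hγ⟩, hγp⟩ := h2
  exact ⟨γ, hγ, y, mem_biUnion hxt (interior_subset hy), hγp⟩

/-- the linear picture of a compact projective quotient -/
theorem cocompact (hD : IsOpen D) (hint : interior (cone D)ᶜ = ∅) {Γ : Subgroup (Equiv.Perm D)}
    (hΓ : ∀ γ ∈ Γ, IsProjectiveSelfMap D γ)
    (hpd : ∀ K : Set D, IsCompact K →
      {γ : Equiv.Perm D | γ ∈ Γ ∧ ((γ '' K) ∩ K).Nonempty}.Finite)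
    (hc : CompactSpace (Quotient (MulAction.orbitRel Γ D))) :
    Cocompact (cone D)ᶜ (linGroup Γ) := by
  have hinv : ∀ A ∈ linGroup Γ, ∀ x ∈ (cone D)ᶜ, A x ∈ (cone D)ᶜ := by
    rintro A ⟨γ, hγ, hA⟩ x hx ⟨hAx, hAD⟩
    apply hx
    have hx0 : x ≠ 0 := by rintro rfl; exact hAx (map_zero A)
    refine ⟨hx0, ?_⟩
    obtain ⟨p, hp⟩ := γ.surjective ⟨_, hAD⟩
    have h1 : act A (mk ℂ x hx0) = act A p := by
      rw [← hA, hp, act_mk A hx0 hAx]
    rw [act_injective A h1]
    exact p.2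
  refine ⟨isClosed_compl_cone hD, fun h => h.1 rfl, ?_, hint, hinv, ?_, ?_, ?_⟩
  · intro c x hx h
    apply hx
    by_cases hc0 : c = 0
    · subst hc0
      exact absurd (zero_smul ℂ x) h.1
    · have := cone_smul h (inv_ne_zero hc0)
      rwa [smul_smul, inv_mul_cancel₀ hc0, one_smul] at this
  · rintro A ⟨γ, hγ, hA⟩ c hc0
    refine ⟨((LinearEquiv.smulOfNeZero ℂ V4 c hc0).toContinuousLinearEquiv) * A,
      ⟨γ, hγ, fun p => ?_⟩, fun x => rfl⟩
    rw [hA]
    induction (p : CP3) using ind with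
    | h z hz =>
      rw [act_mk A hz (ne_map A hz), act_mk _ hz (ne_map _ hz), mk_eq_mk_iff']
      refine ⟨c⁻¹, ?_⟩
      change c⁻¹ • (c • A z) = A z
      rw [smul_smul, inv_mul_cancel₀ hc0, one_smul]
  · -- proper discontinuity
    intro A hA hnp φ hφ x a y hx ha c hlim
    by_contra hy
    have ha' : a ∈ cone D := not_not.1 ha
    have hy' : y ∈ cone D := not_not.1 hy
    have e1 := hx.eventually ((isOpen_cone hD).mem_nhds ha')
    have e2 := hlim.eventually ((isOpen_cone hD).mem_nhds hy')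
    obtain ⟨N, hN⟩ := eventually_atTop.1 (e1.and e2)
    have hu : ∀ n, x (n + N) ∈ cone D := fun n => (hN _ (by omega)).1
    have hv : ∀ n, c (n + N) • (A (φ (n + N)) : V4 →L[ℂ] V4) (x (n + N)) ∈ cone D := fun n =>
      (hN _ (by omega)).2
    set u : ℕ → D := fun n => ⟨mk ℂ _ (hu n).1, (hu n).2⟩ with hu_def
    set v : ℕ → D := fun n => ⟨mk ℂ _ (hv n).1, (hv n).2⟩ with hv_def
    have hut : Tendsto u atTop (𝓝 ⟨mk ℂ a ha'.1, ha'.2⟩) := by
      rw [tendsto_subtype_rng]
      exact tendsto_mk ha'.1 (fun n => (hu n).1) (hx.comp (tendsto_add_atTop_nat N))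
    have hvt : Tendsto v atTop (𝓝 ⟨mk ℂ y hy'.1, hy'.2⟩) := by
      rw [tendsto_subtype_rng]
      exact tendsto_mk hy'.1 (fun n => (hv n).1) (hlim.comp (tendsto_add_atTop_nat N))
    choose γ hγ hγA using fun n => mem_linGroup.1 (hA n)
    have huv : ∀ n, γ (φ (n + N)) (u n) = v n := by
      intro n
      apply Subtype.ext
      rw [hγA]
      simp only [hu_def, hv_def]
      rw [act_mk _ (hu n).1 (ne_map _ (hu n).1), mk_eq_mk_iff']
      have hc0 : c (n + N) ≠ 0 := by
        intro h0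
        have := (hv n).1
        rw [h0, zero_smul] at this
        exact this rfl
      refine ⟨(c (n + N))⁻¹, ?_⟩
      rw [smul_smul, inv_mul_cancel₀ hc0, one_smul]
      rfl
    set K : Set D := insert _ (range u) ∪ insert _ (range v) with hK
    have hKc : IsCompact K := hut.isCompact_insert_range.union hvt.isCompact_insert_range
    have hfin := hpd K hKc
    have hmem : ∀ n, γ (φ (n + N)) ∈
        {γ : Equiv.Perm D | γ ∈ Γ ∧ ((γ '' K) ∩ K).Nonempty} := fun n =>
      ⟨hγ _, v n, ⟨u n, Or.inl (Or.inr ⟨n, rfl⟩), huv n⟩, Or.inr (Or.inr ⟨n, rfl⟩)⟩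
    obtain ⟨m, n, hmn, heq⟩ := hfin.exists_lt_map_eq_of_forall_mem hmem
    apply hnp (φ (m + N)) (φ (n + N)) (hφ (by omega))
    apply proportional hD ha'
    intro p hp
    have h1 := hγA (φ (m + N)) ⟨p, hp⟩
    have h2 := hγA (φ (n + N)) ⟨p, hp⟩
    rw [← h1, ← h2, heq]
  · -- every point of the complement is a limit of an orbit
    intro p hp hp0
    obtain ⟨K, hK, hKD⟩ := exists_compact hD hΓ hc
    have hK' : IsClosed (((↑) : D → CP3) '' K) := (hK.image continuous_subtype_val).isClosed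
    have hdense : p ∈ closure (cone D) := by
      have : Dense (cone D) := by
        rw [← compl_compl (cone D)]
        exact interior_eq_empty_iff_dense_compl.1 hint
      exact this p
    obtain ⟨x, hxD, hxp⟩ := mem_closure_iff_seq_limit.1 hdense
    have h1 : ∀ n, ∃ A ∈ linGroup Γ, ∃ (k : V4) (hk : k ≠ 0) (c : ℂ), ‖k‖ = 1 ∧
        mk ℂ k hk ∈ (((↑) : D → CP3) '' K) ∧ c • A k = x n := by
      intro n
      obtain ⟨γ, hγ, q, hq, hqx⟩ := hKD ⟨mk ℂ (x n) (hxD n).1, (hxD n).2⟩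
      obtain ⟨A, hA, hAγ⟩ := exists_lin hΓ hγ
      obtain ⟨k, hk, hk1, hkq⟩ := exists_unit (q : CP3)
      have h2 : act A q = mk ℂ (x n) (hxD n).1 := by rw [← hAγ, hqx]
      rw [← hkq, act_mk A hk (ne_map A hk)] at h2
      have h3 := (mk_eq_mk_iff' ℂ _ _ (hxD n).1 (ne_map A hk)).1 h2.symm
      obtain ⟨c, hc⟩ := h3
      exact ⟨A, hA, k, hk, c, hk1, by rw [hkq]; exact ⟨q, hq, rfl⟩, hc⟩
    choose A hA k hk c hk1 hkK hcx using h1
    obtain ⟨φ, k0, hφ, hk0n, hklim⟩ := exists_limit_of_norm_eq_one k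
      (Eventually.of_forall hk1)
    have hk00 : k0 ≠ 0 := by intro h; rw [h, norm_zero] at hk0n; exact zero_ne_one hk0n
    have hk0D : k0 ∈ cone D := by
      refine ⟨hk00, ?_⟩
      have h2 : mk ℂ k0 hk00 ∈ (((↑) : D → CP3) '' K) :=
        hK'.mem_of_tendsto (tendsto_mk hk00 (fun n => hk (φ n)) hklim)
          (Eventually.of_forall fun n => hkK (φ n))
      obtain ⟨q, -, hq⟩ := h2
      rw [← hq]
      exact q.2
    -- only finitely many terms are proportional to a given automorphism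
    have hfin : ∀ B ∈ linGroup Γ, ∀ᶠ n in atTop, ¬ ∃ d : ℂ, ∀ v, A (φ n) v = d • B v := by
      intro B hB
      by_contra hcon
      rw [Filter.not_eventually] at hcon
      simp only [not_not] at hcon
      obtain ⟨ψ, hψ, hψd⟩ := extraction_of_frequently_atTop hcon
      choose d hd using hψd
      have h3 : Tendsto (fun n => (c (φ (ψ n)) * d n) • k (φ (ψ n))) atTop (𝓝 (B⁻¹ p)) := by
        have h4 : Tendsto (fun n => B⁻¹ (x (φ (ψ n)))) atTop (𝓝 (B⁻¹ p)) :=
          (B⁻¹.continuous.tendsto p).comp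
            (hxp.comp (hφ.tendsto_atTop.comp hψ.tendsto_atTop))
        refine h4.congr fun n => ?_
        rw [← hcx, hd, smul_smul, map_smul, ← mulA, inv_mul_cancel, oneA]
      have h5 : ∃ e : ℂ, B⁻¹ p = e • k0 :=
        limit_parallel hk00 h3 (hklim.comp hψ.tendsto_atTop)
      obtain ⟨e, he⟩ := h5
      have hpB : B⁻¹ p ∈ (cone D)ᶜ := hinv _ ((linGroup Γ).inv_mem hB) p hp
      have he0 : e ≠ 0 := by
        intro h0
        rw [h0, zero_smul] at he
        exact ne_map B⁻¹ hp0 he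
      apply hpB
      rw [he]
      exact cone_smul hk0D he0
    obtain ⟨ψ, -, hψ⟩ := exists_seq_of_forall_finset_exists (fun _ : ℕ => True)
      (fun m n => m < n ∧ ¬ ∃ d : ℂ, ∀ v, A (φ n) v = d • A (φ m) v) (by
        intro s _
        have h2 : ∀ᶠ n in atTop, ∀ m ∈ s, m < n ∧ ¬ ∃ d : ℂ, ∀ v, A (φ n) v = d • A (φ m) v := by
          rw [Finset.eventually_all]
          intro m _
          exact (eventually_gt_atTop m).and (hfin _ (hA _))
        obtain ⟨n, hn⟩ := h2.exists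
        exact ⟨n, trivial, hn⟩)
    have hψm : StrictMono ψ := fun m n hmn => (hψ m n hmn).1
    refine ⟨fun n => A (φ (ψ n)), fun n => k (φ (ψ n)), k0, fun n => c (φ (ψ n)),
      fun n => hA _, fun m n hmn => (hψ m n hmn).2, hklim.comp hψm.tendsto_atTop,
      not_not.2 hk0D, ?_⟩
    have h6 := hxp.comp (hφ.tendsto_atTop.comp hψm.tendsto_atTop)
    refine h6.congr fun n => ?_
    simp only [Function.comp_apply]
    rw [hcx]

end Pool.Agent.Helper30.CR
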