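import Mathlib

/-! Local analysis of submersions `F : E → ℂ` (real codimension two). -/

open Filter Topology Set
open scoped ContDiff

namespace Pool.Agent.Helper30.CR

variable {E : Type*} [NormedAddCommGroup E] [NormedSpace ℝ E] [FiniteDimensional ℝ E]

/-- straightening of a submersion -/
lemma straighten {F : E → ℂ} {y : E} (hF : ContDiffAt ℝ 1 F y) (hy : F y = 0)
    (hs : Function.Surjective (fderiv ℝ F y)) :
    ∃ (Φ Ψ : E → E) (R : ℂ →L[ℝ] E), (∀ τ, fderiv ℝ F y (R τ) = τ) ∧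
      ContDiffAt ℝ 1 Φ y ∧ Φ y = y ∧ HasStrictFDerivAt Φ (ContinuousLinearMap.id ℝ E) y ∧
      (∀ᶠ w in 𝓝 y, F (Φ w) = fderiv ℝ F y (w - y)) ∧
      ContinuousAt Ψ y ∧ Ψ y = y ∧ (∀ᶠ x in 𝓝 y, Φ (Ψ x) = x) := by
  set L := fderiv ℝ F y with hL
  obtain ⟨R0, hR0⟩ := (L : E →ₗ[ℝ] ℂ).exists_rightInverse_of_surjective
    (LinearMap.range_eq_top.2 hs)
  set R : ℂ →L[ℝ] E := LinearMap.toContinuousLinearMap R0 with hR
  have hRL : ∀ τ, L (R τ) = τ := fun τ => by
    have := LinearMap.congr_fun hR0 τ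
    simpa [hR] using this
  set Ψ : E → E := fun x => x + R (F x) - R (L (x - y)) with hΨ
  have hFd : HasStrictFDerivAt F L y := hF.hasStrictFDerivAt (by norm_num)
  have hΨc : ContDiffAt ℝ 1 Ψ y := by
    apply ContDiffAt.sub
    · exact contDiffAt_id.add (R.contDiff.contDiffAt.comp y hF)
    · exact (R.comp L).contDiff.contDiffAt.comp y (contDiffAt_id.sub contDiffAt_const)
  have hΨd : HasFDerivAt Ψ ((ContinuousLinearEquiv.refl ℝ E : E ≃L[ℝ] E) : E →L[ℝ] E) y := by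
    have h1 : HasFDerivAt Ψ (ContinuousLinearMap.id ℝ E + R.comp L - (R.comp L).comp
        (ContinuousLinearMap.id ℝ E)) y := by
      apply HasFDerivAt.sub
      · exact (hasFDerivAt_id y).add (R.hasFDerivAt.comp y hFd.hasFDerivAt)
      · exact (R.comp L).hasFDerivAt.comp y ((hasFDerivAt_id y).sub_const y)
    convert h1 using 1
    ext x
    simp
  have hΨy : Ψ y = y := by simp [hΨ, hy]
  set Φ := hΨc.localInverse hΨd (by norm_num) with hΦ
  have hΦc : ContDiffAt ℝ 1 Φ y := by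
    have := hΨc.to_localInverse hΨd (by norm_num)
    rwa [hΨy] at this
  have hΦy : Φ y = y := by
    have := hΨc.localInverse_apply_image hΨd (by norm_num)
    rwa [hΨy] at this
  have hΨsd : HasStrictFDerivAt Ψ ((ContinuousLinearEquiv.refl ℝ E : E ≃L[ℝ] E) : E →L[ℝ] E) y :=
    hΨc.hasStrictFDerivAt' hΨd (by norm_num)
  have hΦd : HasStrictFDerivAt Φ (ContinuousLinearMap.id ℝ E) y := by
    have := hΨsd.to_localInverse
    rw [hΨy] at this
    exact this
  have h1 : ∀ᶠ w in 𝓝 y, Ψ (Φ w) = w := by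
    have := hΨsd.eventually_right_inverse
    rw [hΨy] at this
    exact this
  have h2 : ∀ᶠ x in 𝓝 y, Φ (Ψ x) = x := hΨsd.eventually_left_inverse
  have h3 : ∀ x, F x = L (Ψ x - y) := by
    intro x
    simp only [hΨ, map_sub, map_add, hRL]
    ring
  refine ⟨Φ, Ψ, R, hRL, hΦc, hΦy, hΦd, ?_, hΨc.continuousAt, hΨy, h2⟩
  filter_upwards [h1] with w hw
  rw [h3, hw]

/-- vectors in the kernel are velocities of curves in the zero set -/
lemma exists_curve {F : E → ℂ} {y : E} (hF : ContDiffAt ℝ 1 F y) (hy : F y = 0)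
    (hs : Function.Surjective (fderiv ℝ F y)) {ξ : E} (hξ : fderiv ℝ F y ξ = 0) :
    ∃ c : ℝ → E, ContDiffAt ℝ 1 c 0 ∧ c 0 = y ∧ deriv c 0 = ξ ∧ ∀ᶠ t in 𝓝 0, F (c t) = 0 := by
  obtain ⟨Φ, Ψ, R, hRL, hΦc, hΦy, hΦd, hFΦ, -, -, -⟩ := straighten hF hy hs
  have hl : ContDiff ℝ 1 (fun t : ℝ => y + t • ξ) := by fun_prop
  have hl0 : (fun t : ℝ => y + t • ξ) 0 = y := by simp
  refine ⟨fun t => Φ (y + t • ξ), ?_, ?_, ?_, ?_⟩
  · apply ContDiffAt.comp (g := Φ) (f := fun t : ℝ => y + t • ξ) 0 _ hl.contDiffAt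
    simpa using hΦc
  · simp [hΦy]
  · have h1 : HasDerivAt (fun t : ℝ => y + t • ξ) ξ 0 := by
      have := ((hasDerivAt_id (0 : ℝ)).smul_const ξ).const_add y
      simpa using this
    have h2 : HasFDerivAt Φ (ContinuousLinearMap.id ℝ E) ((fun t : ℝ => y + t • ξ) 0) := by
      simpa using hΦd.hasFDerivAt
    have h3 := h2.comp_hasDerivAt (0 : ℝ) h1
    exact h3.deriv
  · have h1 : Tendsto (fun t : ℝ => y + t • ξ) (𝓝 0) (𝓝 y) := by
      have := hl.continuous.tendsto 0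
      simpa using this
    filter_upwards [h1.eventually hFΦ] with t ht
    rw [ht]
    simp [hξ]

/-- near `y` every zero of `F` is joined to `y` inside the zero set, close to `y` -/
lemma exists_path {F : E → ℂ} {y : E} (hF : ContDiffAt ℝ 1 F y) (hy : F y = 0)
    (hs : Function.Surjective (fderiv ℝ F y)) {N : Set E} (hN : N ∈ 𝓝 y) :
    ∀ᶠ x in 𝓝 y, F x = 0 → ∃ P : Set E, IsPreconnected P ∧ y ∈ P ∧ x ∈ P ∧ P ⊆ N ∧
      ∀ w ∈ P, F w = 0 := by
  obtain ⟨Φ, Ψ, R, hRL, hΦc, hΦy, hΦd, hFΦ, hΨc, hΨy, hΦΨ⟩ := straighten hF hy hs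
  have hΦN : ∀ᶠ w in 𝓝 y, Φ w ∈ N := by
    have := hΦc.continuousAt.tendsto
    rw [hΦy] at this
    exact this hN
  have hΦcont : ∀ᶠ w in 𝓝 y, ContinuousAt Φ w := by
    filter_upwards [hΦc.eventually (by norm_num)] with w hw
    exact hw.continuousAt
  obtain ⟨r, hr, hball⟩ := Metric.mem_nhds_iff.1 (inter_mem (inter_mem hFΦ hΦN) hΦcont)
  have hΨt : ∀ᶠ x in 𝓝 y, Ψ x ∈ Metric.ball y r := by
    have := hΨc.tendsto
    rw [hΨy] at this
    exact this (Metric.ball_mem_nhds y hr)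
  filter_upwards [hΨt, hΦΨ] with x hx hx2 hFx
  refine ⟨Φ '' segment ℝ y (Ψ x), ?_, ?_, ?_, ?_, ?_⟩
  · apply IsPreconnected.image (convex_segment y (Ψ x)).isPreconnected
    intro w hw
    have hwb : w ∈ Metric.ball y r :=
      (convex_ball y r).segment_subset (Metric.mem_ball_self hr) hx hw
    exact (hball hwb).2.continuousWithinAt
  · exact ⟨y, left_mem_segment ℝ y (Ψ x), hΦy⟩
  · exact ⟨Ψ x, right_mem_segment ℝ y (Ψ x), hx2⟩
  · rintro _ ⟨w, hw, rfl⟩
    have hwb : w ∈ Metric.ball y r :=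
      (convex_ball y r).segment_subset (Metric.mem_ball_self hr) hx hw
    exact (hball hwb).1.2
  · rintro _ ⟨w, hw, rfl⟩
    have hwb : w ∈ Metric.ball y r :=
      (convex_ball y r).segment_subset (Metric.mem_ball_self hr) hx hw
    rw [(hball hwb).1.1]
    obtain ⟨a, b, ha, hb, hab, rfl⟩ := hw
    have h1 : fderiv ℝ F y (Ψ x - y) = 0 := by
      have h2 : F (Φ (Ψ x)) = fderiv ℝ F y (Ψ x - y) := (hball hx).1.1
      rw [hx2, hFx] at h2
      exact h2.symm
    have h3 : a • y + b • Ψ x - y = b • (Ψ x - y) := by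
      have : a = 1 - b := by linarith
      rw [this]; module
    rw [h3, map_smul, h1, smul_zero]

/-- a submersion vanishing on the zero set of another one has the same zeros -/
lemma zeros_eq {F G : E → ℂ} {y : E} (hF : ContDiffAt ℝ 1 F y) (hy : F y = 0)
    (hs : Function.Surjective (fderiv ℝ F y)) (hG : ContDiffAt ℝ 1 G y)
    (hsG : Function.Surjective (fderiv ℝ G y)) (hFG : ∀ᶠ x in 𝓝 y, F x = 0 → G x = 0) :
    ∀ᶠ x in 𝓝 y, G x = 0 → F x = 0 := by
  obtain ⟨Φ, Ψ, R, hRL, hΦc, hΦy, hΦd, hFΦ, hΨc, hΨy, hΦΨ⟩ := straighten hF hy hs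
  set L := fderiv ℝ F y with hL
  set M := fderiv ℝ G y with hM
  have hker : ∀ ξ, L ξ = 0 → M ξ = 0 := by
    intro ξ hξ
    obtain ⟨c, hc, hc0, hcd, hcF⟩ := exists_curve hF hy hs hξ
    have h1 : ∀ᶠ t in 𝓝 (0 : ℝ), G (c t) = 0 := by
      have h2 : Tendsto c (𝓝 0) (𝓝 y) := by
        have := hc.continuousAt.tendsto
        rwa [hc0] at this
      filter_upwards [hcF, h2.eventually hFG] with t h3 h4
      exact h4 h3
    have h3 : HasDerivAt c ξ 0 := by
      rw [← hcd]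
      exact (hc.differentiableAt (by norm_num)).hasDerivAt
    have h4 : HasFDerivAt G M (c 0) := by
      rw [hc0]; exact (hG.differentiableAt (by norm_num)).hasFDerivAt
    have h5 := h4.comp_hasDerivAt (0 : ℝ) h3
    have h6 : HasDerivAt (G ∘ c) 0 0 :=
      (hasDerivAt_const (0 : ℝ) (0 : ℂ)).congr_of_eventuallyEq h1
    exact h5.unique h6
  have hML : ∀ ξ, M ξ = M (R (L ξ)) := by
    intro ξ
    have : M (ξ - R (L ξ)) = 0 := hker _ (by rw [map_sub, hRL, sub_self])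
    rw [map_sub] at this
    exact sub_eq_zero.1 this
  have hJinj : Function.Injective (M.comp R) := by
    have hJs : Function.Surjective (M.comp R) := by
      intro τ
      obtain ⟨ξ, hξ⟩ := hsG τ
      exact ⟨L ξ, by rw [ContinuousLinearMap.comp_apply, ← hML, hξ]⟩
    exact LinearMap.injective_iff_surjective.2 hJs
  obtain ⟨K, hK, hKJ⟩ := (M.comp R).toLinearMap.exists_antilipschitzWith
    (LinearMap.ker_eq_bot.2 hJinj)
  have hJ : ∀ τ, ‖τ‖ ≤ K * ‖M (R τ)‖ := by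
    intro τ
    have := hKJ.le_mul_dist τ 0
    simpa using this
  have hGΦ : HasStrictFDerivAt (G ∘ Φ) M y := by
    have h1 : HasStrictFDerivAt G M (Φ y) := by
      rw [hΦy]; exact hG.hasStrictFDerivAt (by norm_num)
    have := h1.comp y hΦd
    rwa [ContinuousLinearMap.comp_id] at this
  obtain ⟨ε, hε, hεK⟩ : ∃ ε : ℝ, 0 < ε ∧ K * (ε * ‖R‖) < 1 := by
    refine ⟨1 / (2 * (K * ‖R‖ + 1)), by positivity, ?_⟩
    have h1 : (0 : ℝ) ≤ K * ‖R‖ := by positivity
    rw [show (K : ℝ) * (1 / (2 * (K * ‖R‖ + 1)) * ‖R‖) = (K * ‖R‖) / (2 * (K * ‖R‖ + 1)) by ring]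
    rw [div_lt_one (by positivity)]
    linarith
  have hlo := hGΦ.isLittleO.def hε
  rw [nhds_prod_eq] at hlo
  -- the comparison map
  set π : E → E := fun w => w - R (L (w - y)) with hπ
  have hπc : Tendsto (fun w => (w, π w)) (𝓝 y) (𝓝 (y, y)) := by
    have h1 : Continuous fun w => (w, π w) := by fun_prop
    have := h1.tendsto y
    simpa [hπ] using this
  rw [nhds_prod_eq] at hπc
  have hπy : Tendsto π (𝓝 y) (𝓝 y) := by
    have h1 : Continuous π := by fun_prop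
    have := h1.tendsto y
    simpa [hπ] using this
  have hΨt : Tendsto Ψ (𝓝 y) (𝓝 y) := by
    have := hΨc.tendsto
    rwa [hΨy] at this
  have hΦt : Tendsto Φ (𝓝 y) (𝓝 y) := by
    have := hΦc.continuousAt.tendsto
    rwa [hΦy] at this
  have key : ∀ᶠ w in 𝓝 y, G (Φ w) = 0 → F (Φ w) = 0 := by
    filter_upwards [hFΦ, hπy.eventually hFΦ, hπc.eventually hlo,
      (hΦt.comp hπy).eventually hFG] with w h1 h2 h3 h4 h5
    have h6 : F (Φ (π w)) = 0 := by
      rw [h2]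
      simp only [hπ]
      rw [show w - R (L (w - y)) - y = (w - y) - R (L (w - y)) by abel, map_sub, hRL, sub_self]
    have h7 : G (Φ (π w)) = 0 := h4 h6
    simp only [Function.comp_apply] at h3
    rw [h5, h7] at h3
    have h8 : w - π w = R (L (w - y)) := by simp [hπ]
    rw [h8, sub_zero, zero_sub, norm_neg] at h3
    rw [h1]
    by_contra hne
    have h9 := hJ (L (w - y))
    have h10 : ‖R (L (w - y))‖ ≤ ‖R‖ * ‖L (w - y)‖ := R.le_opNorm _
    have h11 : 0 < ‖L (w - y)‖ := norm_pos_iff.2 hne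
    have h12 : ‖L (w - y)‖ ≤ K * (ε * (‖R‖ * ‖L (w - y)‖)) := by
      refine h9.trans ?_
      gcongr
      exact h3.trans (by gcongr)
    have h13 : ‖L (w - y)‖ ≤ (K * (ε * ‖R‖)) * ‖L (w - y)‖ := by
      calc _ ≤ _ := h12
        _ = _ := by ring
    nlinarith
  filter_upwards [hΨt.eventually key, hΦΨ] with x h1 h2 h3
  rw [h2] at h1
  exact h1 h3

/-- the zero set of a submersion has empty interior -/
lemma not_eventually_zero {F : E → ℂ} {y : E} (hs : Function.Surjective (fderiv ℝ F y)) :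
    ¬ ∀ᶠ x in 𝓝 y, F x = 0 := by
  intro h
  have h1 : F =ᶠ[𝓝 y] fun _ => 0 := h
  have h2 := h1.fderiv_eq (𝕜 := ℝ)
  rw [fderiv_const_apply] at h2
  obtain ⟨ξ, hξ⟩ := hs 1
  rw [h2] at hξ
  exact zero_ne_one hξ

end Pool.Agent.Helper30.CR
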