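import Pool.Agent.Helper30.CR.Defs
import Pool.Agent.Helper30.CR.Local

/-! Finite unions of sheets. -/

open Filter Topology Set Projectivization
open scoped LinearAlgebra.Projectivization ContDiff

namespace Pool.Agent.Helper30.CR

/-- `F` is a local equation of `M` near `z` -/
structure IsEq (M : Set CP3) (z : V4) (F : V4 → ℂ) (U : Set V4) : Prop where
  isOpen : IsOpen U
  mem : z ∈ U
  smooth : ContDiffOn ℝ ∞ F U
  iff : ∀ y ∈ U, (y ∈ cone M ↔ F y = 0)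
  surj : ∀ y ∈ U ∩ cone M, Function.Surjective (fderiv ℝ F y)

lemma exists_eq {M : Set CP3} (hM : IsSubmanifoldOfDimFour ∞ M) {z : V4} (hz : z ∈ cone M) :
    ∃ F U, IsEq M z F U := by
  obtain ⟨U, hU, hzU, F, hF, h1, h2⟩ := hM z hz
  exact ⟨F, U, hU, hzU, hF, h1, h2⟩

lemma IsEq.contDiffAt {M : Set CP3} {z : V4} {F : V4 → ℂ} {U : Set V4} (h : IsEq M z F U)
    {y : V4} (hy : y ∈ U) : ContDiffAt ℝ 1 F y :=
  ((h.smooth.contDiffAt (h.isOpen.mem_nhds hy))).of_le (by norm_cast)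

lemma IsEq.contDiffAt2 {M : Set CP3} {z : V4} {F : V4 → ℂ} {U : Set V4} (h : IsEq M z F U)
    {y : V4} (hy : y ∈ U) : ContDiffAt ℝ 2 F y :=
  ((h.smooth.contDiffAt (h.isOpen.mem_nhds hy))).of_le (by norm_cast)

variable {Λ U : Set CP3} {𝓜 : Set (Set CP3)}

/-- sheets are closed in `U` -/
lemma IsSheetDecomposition.away (h : IsSheetDecomposition Λ U 𝓜) {M : Set CP3} (hM : M ∈ 𝓜)
    {y : V4} (hy : y ∈ cone U) (hyM : y ∉ cone M) : ∀ᶠ x in 𝓝 y, x ∉ cone M := by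
  obtain ⟨K, hK, rfl⟩ := h.closed M hM
  have h1 : y ∈ cone Kᶜ := by
    rw [mem_cone_compl hy.1]
    intro h2
    exact hyM (mem_cone_inter.2 ⟨hy, h2⟩)
  filter_upwards [(isOpen_cone hK.isOpen_compl).mem_nhds h1] with x hx hx2
  exact (mem_cone_compl hx.1).1 hx (mem_cone_inter.1 hx2).2

lemma IsSheetDecomposition.sub (h : IsSheetDecomposition Λ U 𝓜) {M : Set CP3} (hM : M ∈ 𝓜) :
    cone M ⊆ cone Λ ∩ cone U := by
  intro y hy
  have h1 : M ⊆ Λ ∩ U := by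
    rw [h.union]; exact subset_sUnion_of_mem hM
  exact mem_cone_inter.1 (cone_mono h1 hy)

lemma IsSheetDecomposition.exists_mem (h : IsSheetDecomposition Λ U 𝓜) {y : V4}
    (hy : y ∈ cone Λ) (hyU : y ∈ cone U) : ∃ M ∈ 𝓜, y ∈ cone M := by
  have h1 : y ∈ cone (⋃₀ 𝓜) := by
    rw [← h.union]; exact mem_cone_inter.2 ⟨hy, hyU⟩
  obtain ⟨hy0, M, hM, h2⟩ := h1
  exact ⟨M, hM, hy0, h2⟩

/-- the complement of a finite union of sheets is dense -/
lemma IsSheetDecomposition.exists_off (h : IsSheetDecomposition Λ U 𝓜) {O : Set V4}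
    (hO : IsOpen O) (hOU : O ⊆ cone U) (hne : O.Nonempty) : ∃ y ∈ O, y ∉ cone Λ := by
  have key : ∀ s : Set (Set CP3), s.Finite → s ⊆ 𝓜 → ∃ O' ⊆ O, IsOpen O' ∧ O'.Nonempty ∧
      ∀ M ∈ s, ∀ y ∈ O', y ∉ cone M := by
    intro s hs
    induction s, hs using Set.Finite.induction_on with
    | empty => exact fun _ => ⟨O, subset_rfl, hO, hne, by simp⟩
    | @insert M s hMs hs ih =>
      intro hsub
      obtain ⟨O', hO'O, hO', hne', hO's⟩ := ih ((subset_insert _ _).trans hsub)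
      have hM : M ∈ 𝓜 := hsub (mem_insert _ _)
      -- a point of `O'` off `M`
      have h1 : ∃ y ∈ O', y ∉ cone M := by
        by_contra hcon
        push Not at hcon
        obtain ⟨y, hy⟩ := hne'
        obtain ⟨F, W, hF⟩ := exists_eq (h.manifold M hM) (hcon y hy)
        apply not_eventually_zero (hF.surj y ⟨hF.mem, hcon y hy⟩)
        filter_upwards [hO'.mem_nhds hy, hF.isOpen.mem_nhds hF.mem] with x hx hxW
        exact (hF.iff x hxW).1 (hcon x hx)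
      obtain ⟨y, hy, hyM⟩ := h1
      obtain ⟨N, hN, hNo, hyN⟩ := eventually_nhds_iff.1 (h.away hM (hOU (hO'O hy)) hyM)
      refine ⟨O' ∩ N, inter_subset_left.trans hO'O, hO'.inter hNo, ⟨y, hy, hyN⟩, ?_⟩
      intro M' hM' x hx
      rcases mem_insert_iff.1 hM' with rfl | hM'
      · exact hN x hx.2
      · exact hO's M' hM' x hx.1
  obtain ⟨O', hO'O, -, ⟨y, hy⟩, h1⟩ := key 𝓜 h.finite subset_rfl
  refine ⟨y, hO'O hy, fun hyΛ => ?_⟩
  obtain ⟨M, hM, hyM⟩ := h.exists_mem hyΛ (hOU (hO'O hy))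
  exact h1 M hM y hy hyM

/-- generic points of a sheet: there `Λ` is the sheet -/
lemma IsSheetDecomposition.exists_generic (h : IsSheetDecomposition Λ U 𝓜) {M₀ : Set CP3}
    (hM₀ : M₀ ∈ 𝓜) {O : Set V4} (hO : IsOpen O) {z : V4} (hz : z ∈ O) (hzM : z ∈ cone M₀) :
    ∃ y ∈ O, y ∈ cone M₀ ∧ ∀ᶠ x in 𝓝 y, (x ∈ cone Λ ↔ x ∈ cone M₀) := by
  have hUo : IsOpen (cone U) := isOpen_cone h.isOpen
  have key : ∀ s : Set (Set CP3), s.Finite → s ⊆ 𝓜 → ∃ O' ⊆ O ∩ cone U, IsOpen O' ∧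
      (O' ∩ cone M₀).Nonempty ∧ ∀ M ∈ s, ∀ y ∈ O', y ∈ cone M → y ∈ cone M₀ := by
    intro s hs
    induction s, hs using Set.Finite.induction_on with
    | empty => exact fun _ => ⟨O ∩ cone U, subset_rfl, hO.inter hUo,
        ⟨z, ⟨hz, (h.sub hM₀ hzM).2⟩, hzM⟩, by simp⟩
    | @insert M s hMs hs ih =>
      intro hsub
      obtain ⟨O', hO'O, hO', ⟨y0, hy0, hy0M⟩, hO's⟩ := ih ((subset_insert _ _).trans hsub)
      have hM : M ∈ 𝓜 := hsub (mem_insert _ _)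
      by_cases hcase : ∃ y ∈ O', y ∈ cone M₀ ∧ y ∉ cone M
      · obtain ⟨y, hy, hyM₀, hyM⟩ := hcase
        obtain ⟨N, hN, hNo, hyN⟩ := eventually_nhds_iff.1 (h.away hM (hO'O hy).2 hyM)
        refine ⟨O' ∩ N, inter_subset_left.trans hO'O, hO'.inter hNo, ⟨y, ⟨hy, hyN⟩, hyM₀⟩, ?_⟩
        intro M' hM' x hx hxM'
        rcases mem_insert_iff.1 hM' with rfl | hM'
        · exact absurd hxM' (hN x hx.2)
        · exact hO's M' hM' x hx.1 hxM'
      · push Not at hcase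
        have hy0M' : y0 ∈ cone M := hcase y0 hy0 hy0M
        obtain ⟨F, W, hF⟩ := exists_eq (h.manifold M₀ hM₀) hy0M
        obtain ⟨G, W', hG⟩ := exists_eq (h.manifold M hM) hy0M'
        have h1 : ∀ᶠ x in 𝓝 y0, F x = 0 → G x = 0 := by
          filter_upwards [hO'.mem_nhds hy0, hF.isOpen.mem_nhds hF.mem,
            hG.isOpen.mem_nhds hG.mem] with x hx hxW hxW' hFx
          exact (hG.iff x hxW').1 (hcase x hx ((hF.iff x hxW).2 hFx))
        have h2 := zeros_eq (hF.contDiffAt hF.mem) ((hF.iff _ hF.mem).1 hy0M)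
          (hF.surj _ ⟨hF.mem, hy0M⟩) (hG.contDiffAt hG.mem) (hG.surj _ ⟨hG.mem, hy0M'⟩) h1
        have h3 : ∀ᶠ x in 𝓝 y0, x ∈ cone M → x ∈ cone M₀ := by
          filter_upwards [h2, hF.isOpen.mem_nhds hF.mem,
            hG.isOpen.mem_nhds hG.mem] with x hx hxW hxW' hxM
          exact (hF.iff x hxW).2 (hx ((hG.iff x hxW').1 hxM))
        obtain ⟨N, hN, hNo, hyN⟩ := eventually_nhds_iff.1 h3
        refine ⟨O' ∩ N, inter_subset_left.trans hO'O, hO'.inter hNo,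
          ⟨y0, ⟨hy0, hyN⟩, hy0M⟩, ?_⟩
        intro M' hM' x hx hxM'
        rcases mem_insert_iff.1 hM' with rfl | hM'
        · exact hN x hx.2 hxM'
        · exact hO's M' hM' x hx.1 hxM'
  obtain ⟨O', hO'O, hO', ⟨y, hy, hyM₀⟩, h1⟩ := key 𝓜 h.finite subset_rfl
  refine ⟨y, (hO'O hy).1, hyM₀, ?_⟩
  filter_upwards [hO'.mem_nhds hy] with x hx
  constructor
  · intro hxΛ
    obtain ⟨M, hM, hxM⟩ := h.exists_mem hxΛ (hO'O hx).2
    exact h1 M hM x hx hxM
  · intro hxM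
    exact (h.sub hM₀ hxM).1

/-- the complement of `Λ` is dense -/
lemma interior_eq_empty {D : Set CP3} (hΛ : IsLocallyUnionOfSheets Dᶜ) :
    interior (cone D)ᶜ = ∅ := by
  by_contra hne
  obtain ⟨z, hz⟩ := nonempty_iff_ne_empty.2 hne
  -- a nonzero point of the interior
  have h1 : ∃ z ∈ interior (cone D)ᶜ, z ≠ 0 := by
    by_cases h0 : z = 0
    · subst h0
      have h2 : Tendsto (fun t : ℝ => (t : ℂ) • (fun _ => 1 : V4)) (𝓝[≠] 0) (𝓝 0) := by
        have hc : Continuous fun t : ℝ => (t : ℂ) • (fun _ => 1 : V4) := by fun_prop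
        have := hc.tendsto 0
        simp only [Complex.ofReal_zero, zero_smul] at this
        exact this.mono_left nhdsWithin_le_nhds
      obtain ⟨t, ht, ht0⟩ := ((h2.eventually (isOpen_interior.mem_nhds hz)).and
        self_mem_nhdsWithin).exists
      refine ⟨_, ht, ?_⟩
      intro h3
      have := congrFun h3 0
      simp at this
      exact ht0 this
    · exact ⟨z, hz, h0⟩
  obtain ⟨z, hz, hz0⟩ := h1
  have hzΛ : z ∈ cone Dᶜ := (mem_cone_compl hz0).2 (interior_subset hz)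
  obtain ⟨U, 𝓜, hzU, h⟩ := hΛ _ hzΛ.2
  obtain ⟨y, ⟨hy, hyU⟩, hyΛ⟩ := h.exists_off (isOpen_interior.inter (isOpen_cone h.isOpen))
    inter_subset_right ⟨z, hz, ⟨hz0, hzU⟩⟩
  exact hyΛ ((mem_cone_compl hyU.1).2 (interior_subset hy))

end Pool.Agent.Helper30.CR
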