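import Pool.Agent.Helper30.CR.Dyn
import Pool.Agent.Helper30.CR.Sheets

/-! Lines in the complement and Levi-flatness. -/

open Filter Topology Set Projectivization
open scoped LinearAlgebra.Projectivization ContDiff

namespace Pool.Agent.Helper30.CR

open Pool.Agent.Helper30.ProjDyn

lemma IsEq.mono {M : Set CP3} {z : V4} {F : V4 → ℂ} {U : Set V4} (h : IsEq M z F U)
    {y : V4} (hy : y ∈ U) : IsEq M y F U :=
  ⟨h.isOpen, hy, h.smooth, h.iff, h.surj⟩

lemma IsEq.mem_tangentSpace {M : Set CP3} {z : V4} {F : V4 → ℂ} {U : Set V4} (h : IsEq M z F U)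
    (hz : z ∈ cone M) {ξ : V4} : ξ ∈ tangentSpace M z ↔ fderiv ℝ F z ξ = 0 := by
  constructor
  · rintro ⟨c, hc, hc0, hcM, hcd⟩
    have h1 : HasDerivAt c ξ 0 := by
      rw [← hcd]; exact (hc.differentiableAt (by norm_num)).hasDerivAt
    have h2 : HasFDerivAt F (fderiv ℝ F z) (c 0) := by
      rw [hc0]; exact ((h.contDiffAt h.mem).differentiableAt (by norm_num)).hasFDerivAt
    have h3 := h2.comp_hasDerivAt (0 : ℝ) h1
    have h4 : ∀ᶠ t in 𝓝 (0 : ℝ), (F ∘ c) t = 0 := by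
      have h5 : Tendsto c (𝓝 0) (𝓝 z) := by
        have := hc.continuousAt.tendsto
        rwa [hc0] at this
      filter_upwards [hcM, h5.eventually (h.isOpen.mem_nhds h.mem)] with t ht htU
      exact (h.iff _ htU).1 ht
    have h6 : HasDerivAt (F ∘ c) 0 0 :=
      (hasDerivAt_const (0 : ℝ) (0 : ℂ)).congr_of_eventuallyEq h4
    exact h3.unique h6
  · intro hξ
    obtain ⟨c, hc, hc0, hcd, hcF⟩ := exists_curve (h.contDiffAt h.mem)
      ((h.iff _ h.mem).1 hz) (h.surj _ ⟨h.mem, hz⟩) hξ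
    refine ⟨c, hc, hc0, ?_, hcd⟩
    have h5 : Tendsto c (𝓝 0) (𝓝 z) := by
      have := hc.continuousAt.tendsto
      rwa [hc0] at this
    filter_upwards [hcF, h5.eventually (h.isOpen.mem_nhds h.mem)] with t ht htU
    exact (h.iff _ htU).2 ht

/-- the tangent space of a piece of `S` -/
lemma tangentSpace_piece {S M U : Set CP3} (hU : IsOpen U) {q : CP3}
    (hM : connectedComponentIn (S ∩ U) q = M) {y : V4} (hy : y ∈ cone M) :
    tangentSpace S y = tangentSpace M y := by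
  have hMS : M ⊆ S ∩ U := by rw [← hM]; exact connectedComponentIn_subset _ _
  ext ξ
  constructor
  · rintro ⟨c, hc, hc0, hcS, hcd⟩
    refine ⟨c, hc, hc0, ?_, hcd⟩
    have h5 : Tendsto c (𝓝 0) (𝓝 y) := by
      have := hc.continuousAt.tendsto
      rwa [hc0] at this
    have hyU : y ∈ cone U := (mem_cone_inter.1 (cone_mono hMS hy)).2
    have hcont : ∀ᶠ t in 𝓝 (0 : ℝ), ContinuousAt c t := by
      filter_upwards [hc.eventually (by norm_num)] with w hw
      exact hw.continuousAt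
    have h6 : ∀ᶠ t in 𝓝 (0 : ℝ), c t ∈ cone (S ∩ U) ∧ ContinuousAt c t := by
      filter_upwards [hcS, h5.eventually ((isOpen_cone hU).mem_nhds hyU), hcont] with t h7 h8 h9
      exact ⟨mem_cone_inter.2 ⟨h7, h8⟩, h9⟩
    obtain ⟨r, hr, hball⟩ := Metric.eventually_nhds_iff_ball.1 h6
    filter_upwards [Metric.ball_mem_nhds (0 : ℝ) hr] with t ht
    -- the image of the ball is connected
    set g : Metric.ball (0 : ℝ) r → CP3 := fun s => mk ℂ (c s) (hball s s.2).1.1 with hg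
    have hgc : Continuous g := by
      have h10 : Continuous fun s : Metric.ball (0 : ℝ) r =>
          (⟨c s, (hball s s.2).1.1⟩ : {z : Fin 4 → ℂ // z ≠ 0}) := by
        apply Continuous.subtype_mk
        rw [continuous_iff_continuousAt]
        intro s
        exact (hball s s.2).2.comp continuousAt_subtype_val
      exact continuous_mk.comp h10
    have hconn : IsPreconnected (range g) := by
      have : PreconnectedSpace (Metric.ball (0 : ℝ) r) :=
        Subtype.preconnectedSpace (convex_ball (0 : ℝ) r).isPreconnected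
      exact isPreconnected_range hgc
    have h0 : (0 : ℝ) ∈ Metric.ball (0 : ℝ) r := Metric.mem_ball_self hr
    have hy1 : g ⟨0, h0⟩ = mk ℂ y hy.1 := by
      simp only [hg, hc0]
    have hsub : range g ⊆ connectedComponentIn (S ∩ U) (mk ℂ y hy.1) := by
      apply hconn.subset_connectedComponentIn
      · exact ⟨⟨0, h0⟩, hy1⟩
      · rintro _ ⟨s, rfl⟩
        exact (hball s s.2).1.2
    have hyM : mk ℂ y hy.1 ∈ connectedComponentIn (S ∩ U) q := by rw [hM]; exact hy.2
    rw [← connectedComponentIn_eq hyM, hM] at hsub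
    exact ⟨(hball t ht).1.1, hsub ⟨⟨t, ht⟩, rfl⟩⟩
  · rintro ⟨c, hc, hc0, hcM, hcd⟩
    refine ⟨c, hc, hc0, ?_, hcd⟩
    filter_upwards [hcM] with t ht
    exact cone_mono (hMS.trans inter_subset_left) ht

lemma tendsto_clm {E F : Type*} [NormedAddCommGroup E] [NormedSpace ℝ E]
    [NormedAddCommGroup F] [NormedSpace ℝ F] {A : ℕ → E →L[ℝ] F} {A0 : E →L[ℝ] F} {x : ℕ → E}
    {x0 : E} (hA : Tendsto A atTop (𝓝 A0)) (hx : Tendsto x atTop (𝓝 x0)) :
    Tendsto (fun n => A n (x n)) atTop (𝓝 (A0 x0)) :=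
  ((isBoundedBilinearMap_apply (𝕜 := ℝ) (E := E) (F := F)).continuous.tendsto
      (A0, x0)).comp (hA.prodMk_nhds hx)

/-- a function vanishing near `y` on a subspace through `y` -/
lemma flat_along {F : V4 → ℂ} {y : V4} (hF : ContDiffAt ℝ 2 F y) (P : Submodule ℂ V4)
    (hy : y ∈ P) (h : ∀ᶠ x in 𝓝 y, x ∈ P → F x = 0) :
    (∀ ξ ∈ P, fderiv ℝ F y ξ = 0) ∧
      ∀ ξ ∈ P, ∀ η ∈ P, fderiv ℝ (fderiv ℝ F) y ξ η = 0 := by
  have hline : ∀ x ξ : V4, Tendsto (fun t : ℝ => x + t • ξ) (𝓝 0) (𝓝 x) := by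
    intro x ξ
    have hc : Continuous fun t : ℝ => x + t • ξ := by fun_prop
    have := hc.tendsto 0
    simpa using this
  have hder : ∀ x ξ : V4, HasDerivAt (fun t : ℝ => x + t • ξ) ξ 0 := by
    intro x ξ
    have := ((hasDerivAt_id (0 : ℝ)).smul_const ξ).const_add x
    simpa using this
  have hPr : ∀ x ∈ P, ∀ ξ ∈ P, ∀ t : ℝ, x + t • ξ ∈ P := by
    intro x hx ξ hξ t
    have : (t • ξ : V4) = (t : ℂ) • ξ := by ext i; simp
    rw [this]
    exact P.add_mem hx (P.smul_mem _ hξ)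
  have hd : ∀ᶠ x in 𝓝 y, DifferentiableAt ℝ F x := by
    filter_upwards [hF.eventually (by norm_num)] with x hx
    exact hx.differentiableAt (by norm_num)
  have h1 : ∀ᶠ x in 𝓝 y, x ∈ P → ∀ ξ ∈ P, fderiv ℝ F x ξ = 0 := by
    filter_upwards [h.eventually_nhds, hd] with x hx hdx hxP ξ hξ
    have h3 : HasDerivAt (fun t : ℝ => F (x + t • ξ)) (fderiv ℝ F x ξ) 0 := by
      have h4 : HasFDerivAt F (fderiv ℝ F x) ((fun t : ℝ => x + t • ξ) 0) := by
        simpa using hdx.hasFDerivAt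
      exact h4.comp_hasDerivAt (0 : ℝ) (hder x ξ)
    have h5 : (fun t : ℝ => F (x + t • ξ)) =ᶠ[𝓝 0] fun _ => 0 := by
      filter_upwards [(hline x ξ).eventually hx] with t ht
      exact ht (hPr x hxP ξ hξ t)
    exact h3.unique ((hasDerivAt_const (0 : ℝ) (0 : ℂ)).congr_of_eventuallyEq h5)
  refine ⟨h1.self_of_nhds hy, fun ξ hξ η hη => ?_⟩
  have h2 : DifferentiableAt ℝ (fderiv ℝ F) y :=
    (hF.fderiv_right (m := 1) (by norm_num)).differentiableAt (by norm_num)
  have h3 : HasDerivAt (fun t : ℝ => fderiv ℝ F (y + t • ξ)) (fderiv ℝ (fderiv ℝ F) y ξ) 0 := by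
    have h4 : HasFDerivAt (fderiv ℝ F) (fderiv ℝ (fderiv ℝ F) y) ((fun t : ℝ => y + t • ξ) 0) := by
      simpa using h2.hasFDerivAt
    exact h4.comp_hasDerivAt (0 : ℝ) (hder y ξ)
  have h4 : HasDerivAt (fun t : ℝ => fderiv ℝ F (y + t • ξ) η)
      (fderiv ℝ (fderiv ℝ F) y ξ η) 0 := by
    have := h3.clm_apply (hasDerivAt_const (0 : ℝ) η)
    simpa using this
  have h5 : (fun t : ℝ => fderiv ℝ F (y + t • ξ) η) =ᶠ[𝓝 0] fun _ => 0 := by
    filter_upwards [(hline y ξ).eventually h1] with t ht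
    exact ht (hPr y hy ξ hξ t) η hη
  exact h4.unique ((hasDerivAt_const (0 : ℝ) (0 : ℂ)).congr_of_eventuallyEq h5)

variable {D U : Set CP3} {𝓜 : Set (Set CP3)}

/-- the plane at a point of a sheet -/
lemma limit_plane (hD : IsOpen D) (hline : ∀ p ∈ (cone D)ᶜ, p ≠ 0 → HasLine (cone D)ᶜ p)
    (h : IsSheetDecomposition Dᶜ U 𝓜) {M : Set CP3} (hM : M ∈ 𝓜) {z : V4} (hz : z ∈ cone M)
    {F : V4 → ℂ} {N : Set V4} (hF : IsEq M z F N) :
    ∃ w, LinearIndependent ℂ ![z, w] ∧ (∀ a b : ℂ, a • z + b • w ∈ (cone D)ᶜ) ∧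
      (∀ a b : ℂ, fderiv ℝ F z (a • z + b • w) = 0) ∧
      ∀ a b a' b' : ℂ, fderiv ℝ (fderiv ℝ F) z (a • z + b • w) (a' • z + b' • w) = 0 := by
  -- generic points with their lines
  have h1 : ∀ n : ℕ, ∃ y w : V4, y ∈ Metric.ball z (1 / (n + 1 : ℝ)) ∧
      LinearIndependent ℂ ![y, w] ∧ (∀ a b : ℂ, a • y + b • w ∈ (cone D)ᶜ) ∧
      (∀ a b : ℂ, fderiv ℝ F y (a • y + b • w) = 0) ∧
      ∀ a b a' b' : ℂ, fderiv ℝ (fderiv ℝ F) y (a • y + b • w) (a' • y + b' • w) = 0 := by
    intro n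
    obtain ⟨y, ⟨hyb, hyN⟩, hyM, hyg⟩ := h.exists_generic hM
      ((Metric.isOpen_ball (x := z) (ε := 1 / (n + 1 : ℝ))).inter hF.isOpen)
      ⟨Metric.mem_ball_self (by positivity), hF.mem⟩ hz
    have hyC : y ∈ (cone D)ᶜ := (mem_cone_compl hyM.1).1 (h.sub hM hyM).1
    obtain ⟨w, hw, hwC⟩ := hline y hyC hyM.1
    have hev : ∀ᶠ x in 𝓝 y, x ∈ Submodule.span ℂ {y, w} → F x = 0 := by
      filter_upwards [hyg, hF.isOpen.mem_nhds hyN,
        (isOpen_ne (x := (0 : V4))).mem_nhds hyM.1] with x hx hxN hx0 hxP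
      obtain ⟨a, b, rfl⟩ := Submodule.mem_span_pair.1 hxP
      exact (hF.iff _ hxN).1 (hx.1 ((mem_cone_compl hx0).2 (hwC a b)))
    obtain ⟨h2, h3⟩ := flat_along (hF.contDiffAt2 hyN) (Submodule.span ℂ {y, w})
      (Submodule.mem_span_pair.2 ⟨1, 0, by simp⟩) hev
    exact ⟨y, w, hyb, hw, hwC, fun a b => h2 _ (Submodule.mem_span_pair.2 ⟨a, b, rfl⟩),
      fun a b a' b' => h3 _ (Submodule.mem_span_pair.2 ⟨a, b, rfl⟩) _
        (Submodule.mem_span_pair.2 ⟨a', b', rfl⟩)⟩
  choose y w hyb hw hwC hd1 hd2 using h1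
  have hy : Tendsto y atTop (𝓝 z) := by
    rw [tendsto_iff_dist_tendsto_zero]
    refine squeeze_zero (fun _ => dist_nonneg) (fun n => (Metric.mem_ball.1 (hyb n)).le) ?_
    exact tendsto_one_div_add_atTop_nhds_zero_nat
  obtain ⟨w0, hw0, hw0C, φ, α, β, hφ, hlim⟩ := line_limit (isClosed_compl_cone hD) hz.1 hy
    (Eventually.of_forall fun n => ⟨hw n, hwC n⟩)
  have hyφ : Tendsto (fun n => y (φ n)) atTop (𝓝 z) := hy.comp hφ.tendsto_atTop
  have hcomb : ∀ a b : ℂ, Tendsto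
      (fun n => (a + b * α n) • y (φ n) + (b * β n) • w (φ n)) atTop (𝓝 (a • z + b • w0)) := by
    intro a b
    have := (hyφ.const_smul a).add (hlim.const_smul b)
    refine this.congr fun n => ?_
    module
  have hC2 := hF.contDiffAt2 hF.mem
  have hc1 : ContinuousAt (fderiv ℝ F) z :=
    (hC2.fderiv_right (m := 1) (by norm_num)).continuousAt
  have hc2 : ContinuousAt (fderiv ℝ (fderiv ℝ F)) z :=
    ((hC2.fderiv_right (m := 1) (by norm_num)).fderiv_right (m := 0) (by norm_num)).continuousAt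
  refine ⟨w0, hw0, hw0C, fun a b => ?_, fun a b a' b' => ?_⟩
  · have h2 := tendsto_clm (hc1.tendsto.comp hyφ) (hcomb a b)
    refine tendsto_nhds_unique h2 (tendsto_const_nhds.congr fun n => ?_)
    exact (hd1 (φ n) _ _).symm
  · have h2 := tendsto_clm (tendsto_clm (hc2.tendsto.comp hyφ)
      (hcomb a b)) (hcomb a' b')
    refine tendsto_nhds_unique h2 (tendsto_const_nhds.congr fun n => ?_)
    exact (hd2 (φ n) _ _ _ _).symm

/-- every point of the complement lies on a line contained in it -/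
theorem hasLine_all (hD : IsOpen D) (hΓ : HasCompactProjectiveQuotient D)
    (hΛ : IsLocallyUnionOfSheets Dᶜ) :
    ∀ p ∈ (cone D)ᶜ, p ≠ 0 → HasLine (cone D)ᶜ p := by
  obtain ⟨Γ, hproj, hpd, hc⟩ := hΓ
  have H := cocompact hD (interior_eq_empty hΛ) hproj hpd hc
  have hfin : Module.finrank ℂ V4 = 4 := by simp
  rcases dichotomy H (by rw [hfin]; norm_num) with h | ⟨f, e, hfe, hC⟩
  · exact h
  have he : e ≠ 0 := by rintro rfl; exact hfe (map_zero f)
  · -- the point `[e]` would be isolated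
    exfalso
    have heΛ : e ∈ cone Dᶜ := (mem_cone_compl he).2 ((hC e).2 (Or.inr ⟨1, by simp⟩))
    obtain ⟨U, 𝓜, hqU, h⟩ := hΛ _ heΛ.2
    obtain ⟨M, hM, heM⟩ := h.exists_mem heΛ ⟨he, hqU⟩
    obtain ⟨F, N, hF⟩ := exists_eq (h.manifold M hM) heM
    set L := fderiv ℝ F e with hL
    -- a tangent vector which is not a multiple of `e`
    have hex : ∃ ξ, L ξ = 0 ∧ ∀ c : ℂ, ξ ≠ c • e := by
      by_contra hcon
      push Not at hcon
      have h1 : LinearMap.ker (L : V4 →ₗ[ℝ] ℂ) ≤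
          (Submodule.span ℂ {e}).restrictScalars ℝ := by
        intro ξ hξ
        obtain ⟨c, hc⟩ := hcon ξ hξ
        rw [Submodule.restrictScalars_mem]
        exact Submodule.mem_span_singleton.2 ⟨c, hc.symm⟩
      have h3 := Submodule.finrank_mono h1
      have h4 := (L : V4 →ₗ[ℝ] ℂ).finrank_range_add_finrank_ker
      have h5 : Module.finrank ℝ (LinearMap.range (L : V4 →ₗ[ℝ] ℂ)) ≤ 2 := by
        have := Submodule.finrank_le (LinearMap.range (L : V4 →ₗ[ℝ] ℂ))
        simpa using this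
      have h6 : Module.finrank ℝ ((Submodule.span ℂ {e}).restrictScalars ℝ) ≤ 2 := by
        have h7 : Module.finrank ℝ (Submodule.span ℂ {e}) =
            2 * Module.finrank ℂ (Submodule.span ℂ {e}) := by
          exact finrank_real_of_complex _
        have h8 : Module.finrank ℂ (Submodule.span ℂ {e}) ≤ 1 := by
          simpa using finrank_span_le_card (R := ℂ) ({e} : Set V4)
        have h9 : Module.finrank ℝ ((Submodule.span ℂ {e}).restrictScalars ℝ) =
            Module.finrank ℝ (Submodule.span ℂ {e}) := rfl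
        omega
      have h7 : Module.finrank ℝ V4 = 8 := by
        rw [finrank_real_of_complex, hfin]
      rw [h7] at h4
      have h8 := h3.trans h6
      omega
    obtain ⟨ξ, hξ, hξe⟩ := hex
    obtain ⟨c, hc, hc0, hcM, hcd⟩ := (hF.mem_tangentSpace heM).2 hξ
    have hct : Tendsto c (𝓝 0) (𝓝 e) := by
      have := hc.continuousAt.tendsto
      rwa [hc0] at this
    have h1 : ∀ᶠ t in 𝓝 (0 : ℝ), c t ∈ (Submodule.span ℂ {e} : Submodule ℂ V4) := by
      have h2 : ∀ᶠ x in 𝓝 e, f x ≠ 0 := by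
        have := f.continuous.continuousAt (x := e)
        exact this.eventually_ne hfe
      filter_upwards [hcM, hct.eventually h2] with t ht1 ht2
      have h3 : c t ∈ (cone D)ᶜ := (mem_cone_compl ht1.1).1 (h.sub hM ht1).1
      rcases (hC _).1 h3 with h4 | ⟨b, hb⟩
      · exact absurd h4 ht2
      · exact Submodule.mem_span_singleton.2 ⟨b, hb.symm⟩
    -- choose a functional killing `e` but not `ξ`
    have hξ' : ξ ∉ (Submodule.span ℂ {e} : Submodule ℂ V4) := by
      intro h2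
      obtain ⟨b, hb⟩ := Submodule.mem_span_singleton.1 h2
      exact hξe b hb.symm
    obtain ⟨g, hg1, hg2⟩ := Submodule.exists_le_ker_of_notMem hξ'
    set g' : V4 →L[ℂ] ℂ := LinearMap.toContinuousLinearMap g with hg'
    have h3 : HasDerivAt c ξ 0 := by
      rw [← hcd]; exact (hc.differentiableAt (by norm_num)).hasDerivAt
    have h4 : HasFDerivAt (fun x => g' x) (g'.restrictScalars ℝ) (c 0) :=
      (g'.restrictScalars ℝ).hasFDerivAt
    have h5 := h4.comp_hasDerivAt (0 : ℝ) h3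
    have h6 : ((fun x => g' x) ∘ c) =ᶠ[𝓝 0] fun _ => 0 := by
      filter_upwards [h1] with t ht
      exact hg2 ht
    have h7 := h5.unique ((hasDerivAt_const (0 : ℝ) (0 : ℂ)).congr_of_eventuallyEq h6)
    exact hg1 h7

/-- the main theorem -/
theorem main (hD : IsOpen D) (hΓ : HasCompactProjectiveQuotient D)
    (hΛ : IsLocallyUnionOfSheets Dᶜ) {S : Set CP3} (hS : IsMadeOfSheets Dᶜ S) {z : V4}
    (hz : z ∈ cone S) (hCR : HasCRDimensionAt S z 1) :
    IsLeviFlatAt S z ∧ ∀ ξ ∈ complexTangentSpace S z, ∀ hξ : ξ ≠ 0, mk ℂ ξ hξ ∈ Dᶜ := by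
  have hline := hasLine_all hD hΓ hΛ
  obtain ⟨U, 𝓜, hzU, h, hM⟩ := hS _ hz.2
  set M := connectedComponentIn (S ∩ U) (mk ℂ z hz.1) with hMdef
  have hzM : z ∈ cone M := ⟨hz.1, mem_connectedComponentIn ⟨hz.2, hzU⟩⟩
  have htan : ∀ y ∈ cone M, tangentSpace S y = tangentSpace M y := fun y hy =>
    tangentSpace_piece h.isOpen hMdef.symm hy
  obtain ⟨F, N, hF⟩ := exists_eq (h.manifold M hM) hzM
  have hCT : ∀ y ∈ N, y ∈ cone M → ∀ ξ, ξ ∈ complexTangentSpace S y ↔
      (fderiv ℝ F y ξ = 0 ∧ fderiv ℝ F y (Complex.I • ξ) = 0) := by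
    intro y hyN hyM ξ
    rw [complexTangentSpace, mem_ofPred_eq, htan y hyM, (hF.mono hyN).mem_tangentSpace hyM,
      (hF.mono hyN).mem_tangentSpace hyM]
  obtain ⟨w, hw, hwC, hd1, hd2⟩ := limit_plane hD hline h hM hzM hF
  obtain ⟨H, hH, hH2⟩ := hCR
  have hmem : ∀ a b : ℂ, a • z + b • w ∈ H := by
    intro a b
    rw [hH, hCT z hF.mem hzM]
    refine ⟨hd1 a b, ?_⟩
    have := hd1 (Complex.I * a) (Complex.I * b)
    rwa [← smul_smul, ← smul_smul, ← smul_add] at this
  have hspan : Submodule.span ℂ {z, w} = H := by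
    apply Submodule.eq_of_le_of_finrank_eq
    · rw [Submodule.span_le]
      rintro x (rfl | hx)
      · simpa using hmem 1 0
      · rw [mem_singleton_iff] at hx
        subst hx
        simpa using hmem 0 1
    · rw [hH2]
      have h1 := finrank_span_eq_card hw
      have h2 : range ![z, w] = {z, w} := by
        ext x
        simp only [mem_range, Fin.exists_fin_two, mem_insert_iff, mem_singleton_iff]
        simp [eq_comm]
      rw [h2] at h1
      simpa using h1
  have hform : ∀ ξ ∈ H, ∃ a b : ℂ, ξ = a • z + b • w := by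
    intro ξ hξ
    rw [← hspan] at hξ
    obtain ⟨a, b, hab⟩ := Submodule.mem_span_pair.1 hξ
    exact ⟨a, b, hab.symm⟩
  have hD2 : ∀ ξ ∈ H, ∀ η ∈ H, fderiv ℝ (fderiv ℝ F) z ξ η = 0 := by
    intro ξ hξ η hη
    obtain ⟨a, b, rfl⟩ := hform ξ hξ
    obtain ⟨a', b', rfl⟩ := hform η hη
    exact hd2 a b a' b'
  refine ⟨?_, ?_⟩
  · intro V W hV hW O hO hzO hVW
    -- near `z` the sheet is contained in the connected piece
    have hloc : ∀ᶠ y in 𝓝 z, y ∈ cone M → y ∈ connectedComponentIn (cone S ∩ O) z := by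
      have h1 := exists_path (hF.contDiffAt hF.mem) ((hF.iff _ hF.mem).1 hzM)
        (hF.surj _ ⟨hF.mem, hzM⟩) (inter_mem (hF.isOpen.mem_nhds hF.mem) (hO.mem_nhds hzO))
      filter_upwards [h1, hF.isOpen.mem_nhds hF.mem] with y hy hyN hyM
      obtain ⟨P, hP, hzP, hyP, hPN, hPF⟩ := hy ((hF.iff _ hyN).1 hyM)
      apply hP.subset_connectedComponentIn hzP _ hyP
      intro x hx
      have hxM : x ∈ cone M := (hF.iff _ (hPN hx).1).2 (hPF x hx)
      exact ⟨cone_mono ((connectedComponentIn_subset _ _).trans inter_subset_left) hxM,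
        (hPN hx).2⟩
    have hsec : ∀ᶠ y in 𝓝 z, y ∈ cone M →
        (fderiv ℝ F y (V y) = 0 ∧ fderiv ℝ F y (Complex.I • V y) = 0) ∧
        (fderiv ℝ F y (W y) = 0 ∧ fderiv ℝ F y (Complex.I • W y) = 0) := by
      filter_upwards [hloc, hF.isOpen.mem_nhds hF.mem] with y hy hyN hyM
      obtain ⟨h1, h2⟩ := hVW y (hy hyM)
      exact ⟨(hCT y hyN hyM _).1 h1, (hCT y hyN hyM _).1 h2⟩
    -- derivative of a section along another one
    have hkey : ∀ V W : V4 → V4, ContDiffAt ℝ 1 V z → ContDiffAt ℝ 1 W z →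
        (∀ᶠ y in 𝓝 z, y ∈ cone M →
          (fderiv ℝ F y (V y) = 0 ∧ fderiv ℝ F y (Complex.I • V y) = 0) ∧
          (fderiv ℝ F y (W y) = 0 ∧ fderiv ℝ F y (Complex.I • W y) = 0)) →
        fderiv ℝ W z (V z) ∈ H := by
      intro V W hV hW hsec
      have hz1 := hsec.self_of_nhds hzM
      have hVH : V z ∈ H := (hH _).2 ((hCT z hF.mem hzM _).2 hz1.1)
      have hWH : W z ∈ H := (hH _).2 ((hCT z hF.mem hzM _).2 hz1.2)
      obtain ⟨c, hc, hc0, hcM, hcd⟩ := (hF.mem_tangentSpace hzM).2 hz1.1.1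
      have hct : Tendsto c (𝓝 0) (𝓝 z) := by
        have := hc.continuousAt.tendsto
        rwa [hc0] at this
      have hcder : HasDerivAt c (V z) 0 := by
        rw [← hcd]; exact (hc.differentiableAt (by norm_num)).hasDerivAt
      have hC2 := hF.contDiffAt2 hF.mem
      have hFd : HasFDerivAt (fderiv ℝ F) (fderiv ℝ (fderiv ℝ F) z) (c 0) := by
        rw [hc0]
        exact ((hC2.fderiv_right (m := 1) (by norm_num)).differentiableAt
          (by norm_num)).hasFDerivAt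
      have hWd : HasFDerivAt W (fderiv ℝ W z) (c 0) := by
        rw [hc0]; exact (hW.differentiableAt (by norm_num)).hasFDerivAt
      have e1 := hFd.comp_hasDerivAt (0 : ℝ) hcder
      have e2 := hWd.comp_hasDerivAt (0 : ℝ) hcder
      have e3 := e1.clm_apply e2
      have e4 := e1.clm_apply (e2.const_smul Complex.I)
      simp only [Function.comp_apply, Pi.smul_apply, hc0] at e3 e4
      have e5 : (fun t => fderiv ℝ F (c t) (W (c t))) =ᶠ[𝓝 0] fun _ => 0 := by
        filter_upwards [hcM, hct.eventually hsec] with t ht1 ht2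
        exact (ht2 ht1).2.1
      have e6 : (fun t => fderiv ℝ F (c t) (Complex.I • W (c t))) =ᶠ[𝓝 0] fun _ => 0 := by
        filter_upwards [hcM, hct.eventually hsec] with t ht1 ht2
        exact (ht2 ht1).2.2
      have e7 := e3.unique ((hasDerivAt_const (0 : ℝ) (0 : ℂ)).congr_of_eventuallyEq e5)
      have e8 := e4.unique ((hasDerivAt_const (0 : ℝ) (0 : ℂ)).congr_of_eventuallyEq e6)
      rw [hD2 _ hVH _ hWH, zero_add] at e7
      rw [hD2 _ hVH _ (H.smul_mem _ hWH), zero_add] at e8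
      rw [hH, hCT z hF.mem hzM]
      exact ⟨e7, e8⟩
    have h1 := hkey V W hV hW hsec
    have h2 := hkey W V hW hV (hsec.mono fun y hy hyM => (hy hyM).symm)
    have h3 := H.sub_mem h1 h2
    rw [hH] at h3
    exact h3
  · intro ξ hξ hξ0
    rw [← hH] at hξ
    obtain ⟨a, b, rfl⟩ := hform ξ hξ
    exact ((mem_cone_compl hξ0).2 (hwC a b)).2

end Pool.Agent.Helper30.CR
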